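import Pool.Agent.H330AB.AssemblyC

set_option autoImplicit false

/-!
# Absolute factorization of bivariate polynomials in small characteristic, all perfect fields

There is one program (a closed term of the language of `Lang.lean`, in which every elementary step
costs one unit; the same term for all fields and all degrees; the extraction of `p`-th roots is
available as one more elementary operation of unit cost) which computes the absolute factorization
of every polynomial `f` in two variables of total degree `d` over every perfect field `K` of
characteristic `p < d ^ 2`, with all its output over `K`, in at most `C d ^ 3 (log d + 1) ^ c` steps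
and with probability at least two thirds.

The random elements are taken from any finite subset `T` of `K` with at least `200 d ^ 5` elements;
if `K` is finite with less than `200 d ^ 5` elements, they are taken from `K` itself, and the
program also gets the number of elements of `K` (its binary digits and the exponent `m`, in unary,
with `p ^ m` elements); every operation in an extension of `K` is charged as the operations
in `K` which carry it out.
-/

namespace Pool.Agent.Results.MP_2adc98_lc.Complete

open Pool.Agent.H330FB Pool.Agent.H330AB

theorem result :
    ∃ (main : Pr [(.fld, .fld)] (.prod (.prod (.list .fld) (.list .unit))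
          (.prod (.list (.list .fld)) (.list .fld)))
        (.list (.prod (.list .fld) (.prod (.list (.list (.list .fld))) (.list .unit)))))
      (C c B b : ℕ),
    ∀ (K : Type) [Field K] [DecidableEq K] (p d : ℕ) (root : K → K)
      (f : MvPolynomial (Fin 2) K), p.Prime → CharP K p → (∀ x, root x ^ p = x) →
      1 ≤ d → f.totalDegree = d → p < d ^ 2 →
      ((∀ ω : List K, main.cost (root, ()) ((fun _ => 1), ()) (([], []), (coeffRows d f, ω)) ≤
          C * d ^ 3 * (Nat.log 2 d + 1) ^ c) ∧
        (∀ T : Finset K, 200 * d ^ 5 ≤ T.card →
          2 * T.card ^ (2 * d ^ 2 + 3 * d + 3) ≤
            3 * Nat.card {ω : Fin (2 * d ^ 2 + 3 * d + 3) → T //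
              IsAbsFactorization f (main.val (root, ())
                (([], []), (coeffRows d f, List.ofFn (fun i => (ω i : K)))))})) ∧
      (∀ m : ℕ, Nat.card K = p ^ m → Nat.card K < 200 * d ^ 5 →
        (∀ ω : List K, main.cost (root, ()) ((fun _ => 1), ())
            ((binary K (Nat.card K), List.replicate m ()), (coeffRows d f, ω)) ≤
          C * d ^ 3 * (Nat.log 2 d + 1) ^ c) ∧
        2 * Nat.card K ^ (B * d ^ 2 * (Nat.log 2 d + 1) ^ b) ≤
          3 * Nat.card {ω : Fin (B * d ^ 2 * (Nat.log 2 d + 1) ^ b) → K //
            IsAbsFactorization f (main.val (root, ())
              ((binary K (Nat.card K), List.replicate m ()), (coeffRows d f, List.ofFn ω)))}) :=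
  Pool.Agent.H330AB.AssemblyC.complete

end Pool.Agent.Results.MP_2adc98_lc.Complete
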